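import Pool.Agent.H31.DSF

namespace Pool.Agent.Results.MP_a83c81_co.InfiniteD

open Pool.Agent.H31.DSF

theorem result : ¬ ∀ G : Gr, (D G).Finite := fun h => infinite_D (h _)

end Pool.Agent.Results.MP_a83c81_co.InfiniteD
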